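import Pool.Agent.Helper92.TG.GoalsX

/-!
# Project TG (MP_a41896_nt), CM version, packet DIF: the derivative of an endomorphism
-/

set_option autoImplicit false

open Polynomial

namespace Pool.Agent.Helper43.TG.DIF

open WeierstrassCurve Height
open Pool.Agent.Helper29.BL Pool.Agent.Helper42.SG
open Pool.Agent.Helper60.T3 (WL zd IP)
open Pool.Agent.Helper42.TG (Endo)
open Pool.Agent.Helper92.TG (GZ GF Dv IPN DIF)

/-- a derivation over `K` kills the algebraic elements -/
theorem D_alg {K L : Type} [Field K] [CharZero K] [Field L] [Algebra K L] (D : Derivation K L L)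
    {z : L} (hz : IsAlgebraic K z) : D z = 0 := by
  have hi := hz.isIntegral
  have h1 : aeval z (minpoly K z) = 0 := minpoly.aeval K z
  have h2 : D (aeval z (minpoly K z)) = aeval z (derivative (minpoly K z)) * D z := by
    rw [Derivation.map_aeval, smul_eq_mul]
  rw [h1, map_zero] at h2
  have h3 : aeval z (derivative (minpoly K z)) ≠ 0 :=
    (minpoly.irreducible hi).separable.aeval_derivative_ne_zero h1
  exact (mul_eq_zero.mp h2.symm).resolve_left h3

theorem alg_aeval {K F : Type} [Field K] [Field F] [Algebra K F] {x : F} (p : K[X])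
    (h : IsAlgebraic K x) : IsAlgebraic K (aeval x p) := by
  have hx : x ∈ algebraicClosure K F := mem_algebraicClosure_iff.2 h
  have e : aeval x p = algebraMap (algebraicClosure K F) F (aeval ⟨x, hx⟩ p) :=
    aeval_algebraMap_apply F (⟨x, hx⟩ : algebraicClosure K F) p
  rw [e]
  exact mem_algebraicClosure_iff.1 (aeval (⟨x, hx⟩ : algebraicClosure K F) p).2

/-- the cubic polynomial of the curve -/
noncomputable def Bq {K : Type} [Field K] (W : Affine K) : K[X] :=
  C 4 * X ^ 3 + C W.b₂ * X ^ 2 + C (2 * W.b₄) * X + C W.b₆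

theorem Bq_ne {K : Type} [Field K] [CharZero K] (W : Affine K) : Bq W ≠ 0 := by
  intro h
  have h1 : (Bq W).coeff 3 = 0 := by rw [h, coeff_zero]
  have h2 : (Bq W).coeff 3 = 4 := by
    unfold Bq
    simp
  rw [h2] at h1
  have h5 : ((4 : ℕ) : K) ≠ 0 := Nat.cast_ne_zero.mpr (by norm_num)
  exact h5 (by exact_mod_cast h1)

theorem ps_sq {K F : Type} [Field K] [Field F] [Algebra K F] (W : Affine K)
    (P : (WL F W).Point) (hP : P ≠ 0) : ps P ^ 2 = aeval (xc P) (Bq W) := by
  rcases P with _ | ⟨x, y, h⟩
  · exact absurd rfl hP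
  · have he := h.1
    rw [Affine.equation_iff] at he
    have e : aeval x (Bq W) = 4 * x ^ 3 + (WL F W).b₂ * x ^ 2 + 2 * (WL F W).b₄ * x +
        (WL F W).b₆ := by
      have h4 : algebraMap K F 4 = 4 := map_ofNat _ 4
      have h2 : algebraMap K F 2 = 2 := map_ofNat _ 2
      unfold Bq
      simp [WeierstrassCurve.map_b₂, WeierstrassCurve.map_b₄, WeierstrassCurve.map_b₆, h4, h2]
    show (2 * y + (WL F W).a₁ * x + (WL F W).a₃) ^ 2 = aeval x (Bq W)
    rw [e]
    unfold WeierstrassCurve.b₂ WeierstrassCurve.b₄ WeierstrassCurve.b₆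
    linear_combination 4 * he

/-- the points which are not generic -/
theorem nongen (hIPN : IPN) {K : Type} [Field K] [CharZero K] {W : Affine K} (ρ : Endo W)
    {F : Type} [Field F] [DecidableEq F] [Algebra K F] (D : Derivation K F F)
    (P : (WL F W).Point) (h : IsAlgebraic K (xc P)) :
    zd D (ρ.f F P) = 0 ∧ zd D P = 0 := by
  have h0 : zd D P = 0 := by
    unfold zd
    rw [D_alg D h, zero_div]
  refine ⟨?_, h0⟩
  have hps : IsAlgebraic K (ps P) := by
    by_cases hP : P = 0
    · subst hP
      exact isAlgebraic_zero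
    · have h1 : IsAlgebraic K (ps P ^ 2) := by
        rw [ps_sq W P hP]
        exact alg_aeval _ h
      exact IsAlgebraic.of_pow two_pos h1
  have hle : IntermediateField.adjoin K ({xc P, ps P} : Set F) ≤ algebraicClosure K F := by
    rw [IntermediateField.adjoin_le_iff]
    rintro z (rfl | hz)
    · exact mem_algebraicClosure_iff.2 h
    · rw [Set.mem_singleton_iff] at hz
      subst hz
      exact mem_algebraicClosure_iff.2 hps
  have h2 : IP ((IntermediateField.adjoin K ({xc P, ps P} : Set F) : IntermediateField K F) :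
      Set F) (ρ.f F P) := by
    refine hIPN K W ρ F _ P (Or.inr ⟨?_, ?_⟩)
    · exact IntermediateField.subset_adjoin K _ (Set.mem_insert _ _)
    · exact IntermediateField.subset_adjoin K _ (Set.mem_insert_of_mem _ rfl)
  rcases h2 with h2 | ⟨h2, -⟩
  · rw [h2]
    unfold zd
    rw [xc_zero, map_zero, zero_div]
  · unfold zd
    rw [D_alg D (mem_algebraicClosure_iff.1 (hle h2)), zero_div]

theorem t (hIPN : IPN) : Pool.Agent.Helper92.TG.DIF := by
  intro K _ _ W hW ρ
  refine ⟨fun hG => ?_, fun A B r hB hdisc hGF => ?_⟩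
  · intro F _ _ _ D P
    rw [map_zero, zero_mul]
    by_cases ht : Transcendental K (xc P)
    · rw [hG F P ht]
      unfold zd
      rw [xc_zero, map_zero, zero_div]
    · exact (nongen hIPN ρ D P (not_not.1 ht)).1
  · intro F _ _ _ D P
    by_cases ht : Transcendental K (xc P)
    · obtain ⟨hne, e1, e2⟩ := hGF F P ht
      have hP : P ≠ 0 := by
        rintro rfl
        exact hne (map_zero _)
      have hx : ∀ p : K[X], p ≠ 0 → aeval (xc P) p ≠ 0 := fun p hp h =>
        hp (transcendental_iff.1 ht p h)
      have hBx := hx B hB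
      have hdx := hx _ hdisc
      have hpP : ps P ≠ 0 := by
        intro h
        have h1 := ps_sq W P hP
        rw [h, zero_pow two_ne_zero] at h1
        exact hx _ (Bq_ne W) h1.symm
      have hpr : ps (ρ.f F P) ≠ 0 := by
        intro h
        rw [h, mul_zero, zero_mul] at e2
        exact mul_ne_zero hdx hpP e2.symm
      have hD := congrArg D e1
      rw [Derivation.leibniz, Derivation.map_aeval, Derivation.map_aeval] at hD
      simp only [smul_eq_mul] at hD
      simp only [map_sub, map_mul] at e2
      unfold zd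
      rw [← mul_div_assoc, div_eq_div_iff hpr hpP]
      have hB2 : aeval (xc P) B ^ 2 ≠ 0 := pow_ne_zero _ hBx
      apply mul_right_cancel₀ hB2
      -- `D(x') B² = (A' B - A B') D x`
      have h3 : D (xc (ρ.f F P)) * aeval (xc P) B ^ 2 =
          (aeval (xc P) (derivative A) * aeval (xc P) B -
            aeval (xc P) A * aeval (xc P) (derivative B)) * D (xc P) := by
        linear_combination aeval (xc P) B * hD -
          aeval (xc P) (derivative B) * D (xc P) * e1
      linear_combination ps P * h3 - D (xc P) * e2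
    · obtain ⟨h1, h2⟩ := nongen hIPN ρ D P (not_not.1 ht)
      rw [h1, h2, mul_zero]

end Pool.Agent.Helper43.TG.DIF
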